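import Pool.Agent.Helper65.LG.Defs

/-! Package L2c of the project LG (helper65, MP_39d40e_nt): the children of a cylinder. -/

set_option autoImplicit false

namespace Pool.Agent.Helper31.LG

open Pool.Agent.Helper65.LG

theorem cop {a d : ℕ} (ha : a ≠ 0) : Nat.Coprime (a / Nat.gcd a (d ^ a)) d := by
  by_contra hc
  obtain ⟨p, hp, hpa, hpd⟩ := Nat.Prime.not_coprime_iff_dvd.1 hc
  set D := Nat.gcd a (d ^ a) with hDdef
  have hD0 : 0 < D := Nat.gcd_pos_of_pos_left _ (Nat.pos_of_ne_zero ha)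
  have h1 : D * p ∣ a := by
    obtain ⟨c, hc'⟩ := hpa
    have h0 : D * (a / D) = a := Nat.mul_div_cancel' (Nat.gcd_dvd_left _ _)
    rw [hc'] at h0
    exact ⟨c, by rw [← h0]; ring⟩
  obtain ⟨s, D', hD', hDe⟩ := Nat.exists_eq_pow_mul_and_not_dvd hD0.ne' p hp.ne_one
  have h2 : p ^ (s + 1) ∣ a := Dvd.dvd.trans ⟨D', by rw [hDe]; ring⟩ h1
  have h3 : s + 1 ≤ a :=
    (Nat.lt_pow_self hp.one_lt).le.trans (Nat.le_of_dvd (Nat.pos_of_ne_zero ha) h2)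
  have h4 : p ^ (s + 1) ∣ d ^ a := (pow_dvd_pow_of_dvd hpd _).trans (pow_dvd_pow d h3)
  have h5 : D' ∣ d ^ a := (Dvd.intro_left _ hDe.symm).trans (Nat.gcd_dvd_right a (d ^ a))
  have h6 : Nat.Coprime (p ^ (s + 1)) D' :=
    Nat.Coprime.pow_left _ ((Nat.Prime.coprime_iff_not_dvd hp).2 hD')
  have h7 : p ^ (s + 1) * D' ∣ d ^ a := h6.mul_dvd_of_dvd_of_dvd h4 h5
  have h8 : D * p ∣ d ^ a := by
    have : D * p = p ^ (s + 1) * D' := by rw [hDe]; ring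
    rw [this]; exact h7
  have h9 : D * p ∣ D := Nat.dvd_gcd h1 h8
  have h10 := Nat.le_of_dvd hD0 h9
  nlinarith [hp.two_le]

/-- the part prime to `d` -/
theorem exists_b (G : GMap) {i : ℕ} (hi : i < G.d) :
    ∃ b : ℤ, G.m i = (dd G i : ℤ) * b ∧ IsCoprime b (G.d : ℤ) := by
  have hm := G.hm i hi
  have ha : (G.m i).natAbs ≠ 0 := Int.natAbs_ne_zero.2 hm
  have hdv : (dd G i : ℤ) ∣ G.m i := Int.natCast_dvd.2 (Nat.gcd_dvd_left _ _)
  obtain ⟨b, hb⟩ := hdv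
  refine ⟨b, hb, ?_⟩
  rw [Int.isCoprime_iff_gcd_eq_one]
  have h1 : (G.m i).natAbs = dd G i * b.natAbs := by
    conv_lhs => rw [hb]
    rw [Int.natAbs_mul, Int.natAbs_natCast]
  have hdd : 0 < dd G i := Nat.gcd_pos_of_pos_left _ (Nat.pos_of_ne_zero ha)
  have h2 : b.natAbs = (G.m i).natAbs / dd G i := by
    rw [h1, Nat.mul_div_cancel_left _ hdd]
  change Nat.gcd b.natAbs (Int.natAbs (G.d : ℤ)) = 1
  rw [h2, Int.natAbs_natCast]
  exact cop ha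

theorem nxt_iff (G : GMap) (B B' : ℕ × ℕ) (hk : 1 ≤ kk G B) (h2 : B'.2 = kk G B)
    (h1 : B'.1 < G.d * B'.2) (x : ℤ) :
    nxt G B x = B' ↔ T G x ≡ (B'.1 : ℤ) [ZMOD ((G.d * kk G B : ℕ) : ℤ)] := by
  have hM : (0 : ℤ) < ((G.d * kk G B : ℕ) : ℤ) := by
    have := G.hd
    have : 0 < G.d * kk G B := Nat.mul_pos (by omega) hk
    exact_mod_cast this
  have hlt : (B'.1 : ℤ) < ((G.d * kk G B : ℕ) : ℤ) := by
    rw [h2] at h1
    exact_mod_cast h1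
  have hB : (B'.1 : ℤ) % ((G.d * kk G B : ℕ) : ℤ) = B'.1 :=
    Int.emod_eq_of_lt (Int.natCast_nonneg _) hlt
  unfold nxt Int.ModEq
  rw [Prod.ext_iff, hB]
  constructor
  · rintro ⟨h, -⟩
    rw [← h, Int.toNat_of_nonneg (Int.emod_nonneg _ hM.ne')]
  · intro h
    refine ⟨?_, h2.symm⟩
    change (T G x % ((G.d * kk G B : ℕ) : ℤ)).toNat = B'.1
    rw [h, Int.toNat_natCast]

/-- Package L2c. -/
theorem step3 (hS : S_step1) : S_step3 := by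
  intro G B hB2 hB1 B' hB' y0 b hy0 hb
  obtain ⟨hT, -, hk1, hgk⟩ := hS G B hB2 hB1
  obtain ⟨e2, e1, e3⟩ := hB'
  have hd := G.hd
  have hd0 : (G.d : ℤ) ≠ 0 := by
    have : G.d ≠ 0 := by omega
    exact_mod_cast this
  obtain ⟨bi, hbi, hcop⟩ := exists_b G (Nat.mod_lt B.1 (by omega : G.d > 0))
  set i := B.1 % G.d with hi
  have hgd : gg G B ∣ G.d := Nat.gcd_dvd_right _ _
  obtain ⟨q, hq⟩ := hgd
  have hg0 : 0 < gg G B := Nat.gcd_pos_of_pos_right _ (by omega)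
  have hqd : G.d / gg G B = q := by
    rw [hq] at *
    exact Nat.mul_div_cancel_left _ hg0
  have hgk' : (B.2 : ℤ) * dd G i = gg G B * kk G B := by exact_mod_cast hgk.symm
  have hdq : (G.d : ℤ) = gg G B * q := by exact_mod_cast hq
  have hstep : ∀ x0 ∈ cls G B, ∀ s : ℤ, x0 + (G.d : ℤ) * B.2 * s ∈ cls G B ∧
      T G (x0 + (G.d : ℤ) * B.2 * s) = T G x0 + bi * (gg G B * kk G B) * s := by
    intro x0 hx0 s
    have h1 : x0 + (G.d : ℤ) * B.2 * s ∈ cls G B := by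
      change x0 + (G.d : ℤ) * B.2 * s ≡ (B.1 : ℤ) [ZMOD ((G.d * B.2 : ℕ) : ℤ)]
      have hx0' : x0 ≡ (B.1 : ℤ) [ZMOD ((G.d * B.2 : ℕ) : ℤ)] := hx0
      refine Int.ModEq.trans ?_ hx0'
      refine (Int.modEq_iff_dvd.2 ⟨-s, ?_⟩)
      push_cast
      ring
    refine ⟨h1, ?_⟩
    have h2 := hT _ h1
    have h3 := hT _ hx0
    apply mul_left_cancel₀ hd0
    linear_combination h2 - h3 + (G.d : ℤ) * B.2 * s * hbi + (G.d : ℤ) * bi * s * hgk'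
  have hB1c : (B.1 : ℤ) ∈ cls G B := Int.ModEq.refl _
  -- the value at `y0`
  obtain ⟨s0, hs0⟩ : ∃ s0 : ℤ, y0 = B.1 + (G.d : ℤ) * B.2 * s0 := by
    have h1 : y0 ≡ (B.1 : ℤ) [ZMOD ((G.d * B.2 : ℕ) : ℤ)] := hy0
    obtain ⟨c, hc⟩ := Int.modEq_iff_dvd.1 h1
    refine ⟨-c, ?_⟩
    push_cast at hc
    linarith
  obtain ⟨u0, hu0⟩ : ∃ u0 : ℤ, T G (B.1 : ℤ) = B'.1 + (gg G B * kk G B : ℤ) * u0 := by
    obtain ⟨c, hc⟩ := Int.modEq_iff_dvd.1 e3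
    refine ⟨-c, ?_⟩
    push_cast at hc
    rw [hgk'] at hc
    linarith
  have hu : T G y0 = B'.1 + (gg G B * kk G B : ℤ) * (u0 + bi * s0) := by
    rw [hs0, (hstep _ hB1c s0).2, hu0]
    ring
  set u := u0 + bi * s0 with hudef
  have hbb : IsCoprime (bi * b) (G.d : ℤ) := hcop.mul_left hb
  have hbq : IsCoprime (bi * b) (q : ℤ) := by
    rw [hdq] at hbb
    exact hbb.of_mul_right_right
  obtain ⟨α, β, hαβ⟩ := hbq
  have hval : ∀ t : ℤ, T G (y0 + ((G.d * B.2 : ℕ) : ℤ) * b * t) =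
      B'.1 + (gg G B * kk G B : ℤ) * (u + bi * b * t) := by
    intro t
    have h1 : y0 + ((G.d * B.2 : ℕ) : ℤ) * b * t = y0 + (G.d : ℤ) * B.2 * (b * t) := by
      push_cast
      ring
    rw [h1, (hstep y0 hy0 _).2, hu]
    ring
  have hgk0 : ((gg G B : ℤ) * kk G B) ≠ 0 := by
    have : gg G B * kk G B ≠ 0 := Nat.mul_ne_zero hg0.ne' (by omega)
    exact_mod_cast this
  have hmod : ((G.d * kk G B : ℕ) : ℤ) = (gg G B * kk G B : ℤ) * q := by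
    push_cast
    rw [hdq]
    ring
  have hiff : ∀ t : ℤ, nxt G B (y0 + ((G.d * B.2 : ℕ) : ℤ) * b * t) = B' ↔
      (q : ℤ) ∣ u + bi * b * t := by
    intro t
    rw [nxt_iff G B B' hk1 e2 e1, hval, Int.modEq_comm, Int.modEq_iff_dvd, hmod, add_sub_cancel_left]
    exact mul_dvd_mul_iff_left hgk0
  have ht0 : (q : ℤ) ∣ u + bi * b * (-(α * u)) := by
    refine ⟨β * u, ?_⟩
    have : u + bi * b * (-(α * u)) = u * (1 - α * (bi * b)) := by ring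
    rw [this, ← hαβ]
    ring
  refine ⟨-(α * u), T G (y0 + ((G.d * B.2 : ℕ) : ℤ) * b * (-(α * u))), bi * b, ?_, hbb, ?_, ?_⟩
  · change T G _ ≡ (B'.1 : ℤ) [ZMOD ((G.d * B'.2 : ℕ) : ℤ)]
    rw [e2]
    exact (nxt_iff G B B' hk1 e2 e1 _).1 ((hiff _).2 ht0)
  · intro t
    rw [hiff, hqd]
    have h1 : u + bi * b * t = (u + bi * b * (-(α * u))) + bi * b * (t - -(α * u)) := by ring
    rw [h1, dvd_add_right ht0]
    have hc2 : IsCoprime (q : ℤ) (bi * b) := IsCoprime.symm ⟨α, β, hαβ⟩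
    exact ⟨fun h => IsCoprime.dvd_of_dvd_mul_left hc2 h, fun h => Dvd.dvd.mul_left h _⟩
  · intro t
    rw [hval, hval, hqd, e2]
    push_cast
    rw [hdq]
    ring

end Pool.Agent.Helper31.LG
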